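import Pool.Agent.R21.EK.Code

/-!
# Hausdorff dimension of the exponential series at typical compact sets

`MinkPow K i` is the Minkowski product of `i` copies of the compact set `K ⊆ [0, 1]` (it is `{1}` for
`i = 0`), `PartialSum K n` is the Minkowski sum of the sets `K^(i) / i!`, `i ≤ n`, and `IsExp K L` says
that the partial sums converge to the nonempty compact set `L` in the Hausdorff metric.

Proof (helper270, simplified).  Let `x < y` be positive points of `K`.  Then `exp(K)` contains all sums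
`∑ (y ^ i / i!) q ^ (k_i)` with `q = x / y` and `0 ≤ k_i ≤ i`.  The levels `i` with
`2 ^ (10 r) < i ≤ 2 ^ (10 r + 10)` are divided into groups of `2 ^ r` consecutive levels.  In all but few
groups the logarithms of any two coefficients `y ^ i / i!` differ modulo `log q` by at least
`2 ^ (-5 r)`.  The levels of such a group are assigned by an arbitrary permutation to `2 ^ r` slots,
whose distances are `6 r log 2`.  Different permutations give separated sums, and the number of
configurations is large enough for a positive lower bound of the Hausdorff dimension.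
-/

set_option autoImplicit false

open TopologicalSpace Filter Topology Set

namespace Pool.Agent.Results.MP_098a03_an.PositiveDimension

/-- the space of nonempty compact subsets of `[0, 1]` with the Hausdorff metric -/
abbrev KK01 : Type := NonemptyCompacts (Icc (0 : ℝ) 1)

/-- the Minkowski product of `i` copies of `K` -/
def MinkPow (K : KK01) : ℕ → NonemptyCompacts ℝ
  | 0 => {1}
  | i + 1 => (MinkPow K i ×ˢ K.map Subtype.val continuous_subtype_val).map
      (fun p => p.1 * p.2) (by fun_prop)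

/-- the Minkowski sum of the sets `K^(i) / i!` for `i ≤ n` -/
noncomputable def PartialSum (K : KK01) : ℕ → NonemptyCompacts ℝ
  | 0 => (MinkPow K 0).map (fun p => p / (Nat.factorial 0 : ℝ)) (by fun_prop)
  | n + 1 => (PartialSum K n ×ˢ MinkPow K (n + 1)).map
      (fun p => p.1 + p.2 / (Nat.factorial (n + 1) : ℝ)) (by fun_prop)

/-- `L = exp(K)`: the partial sums converge to `L` in the Hausdorff metric -/
def IsExp (K : KK01) (L : NonemptyCompacts ℝ) : Prop :=
  Tendsto (PartialSum K) atTop (𝓝 L)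

lemma mem_minkPow_succ (K : KK01) (i : ℕ) (z : ℝ) :
    z ∈ MinkPow K (i + 1) ↔ ∃ a ∈ MinkPow K i, ∃ b : Icc (0 : ℝ) 1, b ∈ K ∧ a * b = z := by
  rw [← SetLike.mem_coe, MinkPow, NonemptyCompacts.coe_map, NonemptyCompacts.coe_prod,
    NonemptyCompacts.coe_map]
  constructor
  · rintro ⟨⟨a, b⟩, ⟨ha, ⟨c, hc, hcb⟩⟩, h⟩
    simp only at ha hcb h
    exact ⟨a, ha, c, hc, by rw [hcb]; exact h⟩
  · rintro ⟨a, ha, b, hb, h⟩
    exact ⟨(a, b), ⟨ha, ⟨b, hb, rfl⟩⟩, h⟩

lemma mem_minkPow_zero (K : KK01) (z : ℝ) : z ∈ MinkPow K 0 ↔ z = 1 := by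
  rw [MinkPow]
  simp [← SetLike.mem_coe]

lemma minkPow_mem_Icc (K : KK01) (i : ℕ) (z : ℝ) (hz : z ∈ MinkPow K i) : 0 ≤ z ∧ z ≤ 1 := by
  induction i generalizing z with
  | zero =>
    rw [mem_minkPow_zero] at hz
    subst hz
    exact ⟨by norm_num, le_rfl⟩
  | succ i ih =>
    obtain ⟨a, ha, b, -, rfl⟩ := (mem_minkPow_succ K i z).1 hz
    obtain ⟨h1, h2⟩ := ih a ha
    have h3 := b.2.1
    have h4 := b.2.2
    exact ⟨mul_nonneg h1 h3, mul_le_one₀ h2 h3 h4⟩

lemma mem_partialSum_succ (K : KK01) (n : ℕ) (z : ℝ) :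
    z ∈ PartialSum K (n + 1) ↔ ∃ a ∈ PartialSum K n, ∃ b ∈ MinkPow K (n + 1),
      a + b / (Nat.factorial (n + 1) : ℝ) = z := by
  rw [← SetLike.mem_coe, PartialSum, NonemptyCompacts.coe_map, NonemptyCompacts.coe_prod]
  constructor
  · rintro ⟨⟨a, b⟩, ⟨ha, hb⟩, h⟩
    exact ⟨a, ha, b, hb, h⟩
  · rintro ⟨a, ha, b, hb, h⟩
    exact ⟨(a, b), ⟨ha, hb⟩, h⟩

lemma mem_partialSum_zero (K : KK01) : (1 : ℝ) ∈ PartialSum K 0 := by
  rw [← SetLike.mem_coe, PartialSum, NonemptyCompacts.coe_map]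
  exact ⟨1, (mem_minkPow_zero K 1).2 rfl, by simp⟩

lemma dist_partialSum (K : KK01) (n : ℕ) :
    dist (PartialSum K n) (PartialSum K (n + 1)) ≤ 1 / (Nat.factorial (n + 1) : ℝ) := by
  rw [Metric.NonemptyCompacts.dist_eq]
  have key : ∀ a b : ℝ, b ∈ MinkPow K (n + 1) →
      dist a (a + b / (Nat.factorial (n + 1) : ℝ)) ≤ 1 / (Nat.factorial (n + 1) : ℝ) := by
    intro a b hb
    obtain ⟨h1, h2⟩ := minkPow_mem_Icc K _ b hb
    rw [dist_comm, Real.dist_eq, add_sub_cancel_left, abs_of_nonneg (by positivity)]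
    exact div_le_div_of_nonneg_right h2 (by positivity)
  apply Metric.hausdorffDist_le_of_mem_dist (by positivity)
  · intro a ha
    obtain ⟨b, hb⟩ := (MinkPow K (n + 1)).nonempty
    exact ⟨_, (mem_partialSum_succ K n _).2 ⟨a, ha, b, hb, rfl⟩, key a b hb⟩
  · intro z hz
    obtain ⟨a, ha, b, hb, rfl⟩ := (mem_partialSum_succ K n z).1 hz
    exact ⟨a, ha, by rw [dist_comm]; exact key a b hb⟩

lemma exists_isExp (K : KK01) : ∃ L, IsExp K L := by
  have hs : Summable (fun n : ℕ => 1 / (Nat.factorial (n + 1) : ℝ)) := by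
    have h := Real.summable_pow_div_factorial 1
    simp only [one_pow] at h
    exact (summable_nat_add_iff 1).2 h
  have hc : CauchySeq (PartialSum K) :=
    cauchySeq_of_dist_le_of_summable _ (fun n => dist_partialSum K n) hs
  exact cauchySeq_tendsto_of_complete hc

/-- the limit contains all limits of elements of the partial sums -/
lemma mem_of_tendsto (K : KK01) (L : NonemptyCompacts ℝ) (hL : IsExp K L) (s : ℕ → ℝ) (z : ℝ)
    (hs : ∀ n, s n ∈ PartialSum K n) (hz : Tendsto s atTop (𝓝 z)) : z ∈ (L : Set ℝ) := by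
  have h1 : Tendsto (fun n => dist (PartialSum K n) L) atTop (𝓝 0) :=
    tendsto_iff_dist_tendsto_zero.1 hL
  have h2 : ∀ n, Metric.infDist (s n) (L : Set ℝ) ≤ dist (PartialSum K n) L := by
    intro n
    rw [Metric.NonemptyCompacts.dist_eq]
    apply Metric.infDist_le_hausdorffDist_of_mem (hs n)
    exact Metric.hausdorffEDist_ne_top_of_nonempty_of_bounded (PartialSum K n).nonempty L.nonempty
      (PartialSum K n).isCompact.isBounded L.isCompact.isBounded
  have h3 : Tendsto (fun n => Metric.infDist (s n) (L : Set ℝ)) atTop (𝓝 0) :=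
    squeeze_zero (fun n => Metric.infDist_nonneg) h2 h1
  have h4 : Tendsto (fun n => Metric.infDist (s n) (L : Set ℝ)) atTop
      (𝓝 (Metric.infDist z (L : Set ℝ))) :=
    ((Metric.continuous_infDist_pt _).tendsto z).comp hz
  have h5 := tendsto_nhds_unique h4 h3
  exact (L.isCompact.isClosed.mem_iff_infDist_zero L.nonempty).2 h5

lemma pow_mem_minkPow (K : KK01) (x y : Icc (0 : ℝ) 1) (hx : x ∈ K) (hy : y ∈ K) (i k : ℕ)
    (hk : k ≤ i) : (x : ℝ) ^ k * (y : ℝ) ^ (i - k) ∈ MinkPow K i := by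
  induction i generalizing k with
  | zero =>
    obtain rfl : k = 0 := by omega
    rw [mem_minkPow_zero]
    simp
  | succ i ih =>
    rw [mem_minkPow_succ]
    rcases Nat.lt_or_ge i k with h | h
    · obtain rfl : k = i + 1 := by omega
      refine ⟨(x : ℝ) ^ i * (y : ℝ) ^ (i - i), ih i le_rfl, x, hx, ?_⟩
      simp [pow_succ]
    · refine ⟨(x : ℝ) ^ k * (y : ℝ) ^ (i - k), ih k h, y, hy, ?_⟩
      rw [show i + 1 - k = (i - k) + 1 by omega, pow_succ]
      ring

open Pool.Agent.R21.EK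

lemma exists_par (x y : ℝ) (hx : 0 < x) (hxy : x < y) (hy1 : y ≤ 1) :
    ∃ P : Par, P.y = y ∧ P.q = x / y := by
  have hy : 0 < y := hx.trans hxy
  have hq0 : 0 < x / y := by positivity
  have hq1 : x / y < 1 := (div_lt_one hy).2 hxy
  have hlam : 0 < -Real.log (x / y) := by
    have := Real.log_neg hq0 hq1
    linarith
  have hY : 0 ≤ -Real.log y := by
    have := Real.log_nonpos hy.le hy1
    linarith
  have ht : Tendsto (fun r : ℕ => (2 : ℝ) ^ r) atTop atTop :=
    tendsto_pow_atTop_atTop_of_one_lt (by norm_num)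
  have e1 : ∀ᶠ r : ℕ in atTop, (1 / (-Real.log (x / y))) ≤ (2 : ℝ) ^ r :=
    ht.eventually_ge_atTop _
  have e2 : ∀ᶠ r : ℕ in atTop, (4 / (x / y)) ≤ (2 : ℝ) ^ r := ht.eventually_ge_atTop _
  have e3 : ∀ᶠ r : ℕ in atTop, -Real.log y ≤ (2 : ℝ) ^ r := ht.eventually_ge_atTop _
  obtain ⟨r0, hr0⟩ := eventually_atTop.1 (e1.and (e2.and (e3.and (eventually_ge_atTop 24))))
  have f1 : ∀ r, r0 ≤ r → 1 ≤ (-Real.log (x / y)) * 2 ^ r := by
    intro r hr
    have := (hr0 r hr).1
    rw [div_le_iff₀ hlam] at this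
    linarith
  refine ⟨⟨y, x / y, r0, hy, hy1, hq0, hq1, (hr0 r0 le_rfl).2.2.2, f1, ?_, ?_⟩, rfl, rfl⟩
  · intro r hr
    have := (hr0 r hr).2.1
    rw [div_le_iff₀ hq0] at this
    linarith
  · intro r hr
    have h3 := (hr0 r hr).2.2.1
    have h24 := (hr0 r hr).2.2.2
    have h1 := f1 r hr
    set lam := -Real.log (x / y) with hlamdef
    have hlog2 : Real.log 2 ≤ 1 := by
      have := Real.log_two_lt_d9
      linarith
    have hpow : (x / y) ^ (2 ^ (9 * r)) = Real.exp (-(lam * 2 ^ (9 * r))) := by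
      rw [hlamdef]
      rw [show -(-Real.log (x / y) * 2 ^ (9 * r)) = Real.log (x / y) * ((2 ^ (9 * r) : ℕ) : ℝ) by
        push_cast; ring, Real.exp_mul, Real.exp_log hq0, Real.rpow_natCast]
    have hrhs : y * ((2 : ℝ) ^ (16 * r + 10))⁻¹ =
        Real.exp (Real.log y - (16 * r + 10) * Real.log 2) := by
      rw [Real.exp_sub, Real.exp_log hy, mul_comm _ (Real.log 2), Real.exp_mul,
        Real.exp_log (by norm_num : (0 : ℝ) < 2)]
      rw [show (16 * (r : ℝ) + 10) = ((16 * r + 10 : ℕ) : ℝ) by push_cast; ring, Real.rpow_natCast]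
      rfl
    rw [hpow, hrhs]
    apply Real.exp_le_exp.2
    have hX : (1 : ℝ) ≤ 2 ^ r := one_le_pow₀ (by norm_num)
    have hrX : (r : ℝ) ≤ 2 ^ r := by
      have := (Nat.lt_two_pow_self (n := r)).le
      exact_mod_cast this
    have h9 : (2 : ℝ) ^ (9 * r) = 2 ^ r * 2 ^ (8 * r) := by
      rw [← pow_add]; congr 1; ring
    have h8 : (27 : ℝ) * 2 ^ r ≤ 2 ^ (8 * r) := by
      have : (2 : ℝ) ^ (8 * r) = 2 ^ r * 2 ^ (7 * r) := by
        rw [← pow_add]; congr 1; ring
      rw [this]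
      have h32 : (32 : ℝ) ≤ 2 ^ (7 * r) := by
        calc (32 : ℝ) = 2 ^ 5 := by norm_num
          _ ≤ _ := pow_le_pow_right₀ (by norm_num) (by omega)
      nlinarith
    have h10 : (2 : ℝ) ^ (8 * r) ≤ lam * 2 ^ (9 * r) := by
      rw [h9, ← mul_assoc]
      have : (0 : ℝ) ≤ 2 ^ (8 * r) := by positivity
      nlinarith
    have h11 : (16 * (r : ℝ) + 10) * Real.log 2 ≤ 16 * r + 10 := by
      have : (0 : ℝ) ≤ 16 * r + 10 := by positivity
      nlinarith
    linarith

/-- exp(K) has positive Hausdorff dimension if `K` has two positive points -/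
theorem dimH_pos_of_two (K : KK01) (x y : Icc (0 : ℝ) 1) (hx : x ∈ K) (hy : y ∈ K)
    (hx0 : (0 : ℝ) < x) (hxy : (x : ℝ) < y) (L : NonemptyCompacts ℝ) (hL : IsExp K L) :
    0 < dimH (L : Set ℝ) := by
  obtain ⟨P, hPy, hPq⟩ := exists_par x y hx0 hxy y.2.2
  apply P.dimH_pos
  intro σ
  have hy0 : (0 : ℝ) < y := hx0.trans hxy
  apply mem_of_tendsto K L hL (fun n => 1 + ∑ l ∈ Finset.range n, P.VV σ l)
  · intro n
    induction n with
    | zero => simpa using mem_partialSum_zero K
    | succ n ih =>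
      rw [mem_partialSum_succ]
      refine ⟨_, ih, (x : ℝ) ^ (P.KK σ n) * (y : ℝ) ^ (n + 1 - P.KK σ n),
        pow_mem_minkPow K x y hx hy (n + 1) _ (P.KK_le σ n), ?_⟩
      rw [Finset.sum_range_succ, ← add_assoc]
      congr 1
      unfold Par.VV ww
      rw [hPy, hPq, div_pow]
      have h1 : (y : ℝ) ^ (n + 1) = (y : ℝ) ^ (n + 1 - P.KK σ n) * (y : ℝ) ^ (P.KK σ n) := by
        rw [← pow_add, Nat.sub_add_cancel (P.KK_le σ n)]
      rw [h1]
      field_simp
  · unfold Par.FF
    exact (P.summable_VV σ).hasSum.tendsto_sum_nat.const_add 1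

/-- the sets with two positive points -/
def Two : Set KK01 := {K | ∃ x ∈ K, ∃ y ∈ K, (0 : ℝ) < (x : ℝ) ∧ (x : ℝ) < y}

lemma isOpen_two : IsOpen Two := by
  rw [Metric.isOpen_iff]
  rintro K ⟨x, hx, y, hy, hx0, hxy⟩
  set ε := min (x : ℝ) ((y : ℝ) - x) / 2 with hε
  have hε0 : 0 < ε := by
    have : 0 < min (x : ℝ) ((y : ℝ) - x) := lt_min hx0 (by linarith)
    positivity
  have hεx : 2 * ε ≤ x := by
    rw [hε]; have := min_le_left (x : ℝ) ((y : ℝ) - x); linarith
  have hεy : 2 * ε ≤ (y : ℝ) - x := by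
    rw [hε]; have := min_le_right (x : ℝ) ((y : ℝ) - x); linarith
  refine ⟨ε, hε0, ?_⟩
  intro K' hK'
  rw [Metric.mem_ball, Metric.NonemptyCompacts.dist_eq, Metric.hausdorffDist_comm] at hK'
  have hfin : Metric.hausdorffEDist (K : Set (Icc (0 : ℝ) 1)) (K' : Set (Icc (0 : ℝ) 1)) ≠ ⊤ :=
    Metric.hausdorffEDist_ne_top_of_nonempty_of_bounded K.nonempty K'.nonempty
      K.isCompact.isBounded K'.isCompact.isBounded
  obtain ⟨x', hx', hdx⟩ := Metric.exists_dist_lt_of_hausdorffDist_lt (x := x) hx hK' hfin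
  obtain ⟨y', hy', hdy⟩ := Metric.exists_dist_lt_of_hausdorffDist_lt (x := y) hy hK' hfin
  rw [Subtype.dist_eq, Real.dist_eq, abs_lt] at hdx hdy
  exact ⟨x', hx', y', hy', by linarith [hdx.2], by linarith [hdx.1, hdy.2]⟩

lemma dense_two : Dense Two := by
  rw [Metric.dense_iff]
  intro K ε hε
  obtain ⟨a, ha⟩ := K.nonempty
  -- two positive points near `a`
  have hpts : ∃ x y : Icc (0 : ℝ) 1, (0 : ℝ) < x ∧ (x : ℝ) < y ∧ dist x a < ε ∧ dist y a < ε := by
    have ha0 := a.2.1
    have ha1 := a.2.2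
    rcases lt_or_ge (a : ℝ) (1 / 2) with h | h
    · set δ := min ε (1 / 2) / 3 with hδ
      have hδ0 : 0 < δ := by
        have : 0 < min ε (1 / 2) := lt_min hε (by norm_num)
        positivity
      have h1 : 3 * δ ≤ ε := by rw [hδ]; have := min_le_left ε (1 / 2); linarith
      have h2 : 3 * δ ≤ 1 / 2 := by rw [hδ]; have := min_le_right ε (1 / 2); linarith
      refine ⟨⟨a + δ, by constructor <;> linarith⟩, ⟨a + 2 * δ, by constructor <;> linarith⟩,
        ?_, ?_, ?_, ?_⟩
      · show (0 : ℝ) < a + δ; linarith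
      · show (a : ℝ) + δ < a + 2 * δ; linarith
      · rw [Subtype.dist_eq, Real.dist_eq]
        show |(a : ℝ) + δ - a| < ε
        rw [add_sub_cancel_left, abs_of_pos hδ0]; linarith
      · rw [Subtype.dist_eq, Real.dist_eq]
        show |(a : ℝ) + 2 * δ - a| < ε
        rw [add_sub_cancel_left, abs_of_pos (by linarith)]; linarith
    · set δ := min ε (1 / 2) / 3 with hδ
      have hδ0 : 0 < δ := by
        have : 0 < min ε (1 / 2) := lt_min hε (by norm_num)
        positivity
      have h1 : 3 * δ ≤ ε := by rw [hδ]; have := min_le_left ε (1 / 2); linarith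
      have h2 : 3 * δ ≤ 1 / 2 := by rw [hδ]; have := min_le_right ε (1 / 2); linarith
      refine ⟨⟨a - 2 * δ, by constructor <;> linarith⟩, ⟨a - δ, by constructor <;> linarith⟩,
        ?_, ?_, ?_, ?_⟩
      · show (0 : ℝ) < a - 2 * δ; linarith
      · show (a : ℝ) - 2 * δ < a - δ; linarith
      · rw [Subtype.dist_eq, Real.dist_eq]
        show |(a : ℝ) - 2 * δ - a| < ε
        rw [show (a : ℝ) - 2 * δ - a = -(2 * δ) by ring, abs_neg, abs_of_pos (by linarith)]; linarith
      · rw [Subtype.dist_eq, Real.dist_eq]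
        show |(a : ℝ) - δ - a| < ε
        rw [show (a : ℝ) - δ - a = -δ by ring, abs_neg, abs_of_pos hδ0]; linarith
  obtain ⟨x, y, hx0, hxy, hdx, hdy⟩ := hpts
  set δ := max (dist x a) (dist y a) with hδ
  have hδε : δ < ε := max_lt hdx hdy
  refine ⟨K ⊔ {x} ⊔ {y}, ?_, ?_⟩
  · rw [Metric.mem_ball, Metric.NonemptyCompacts.dist_eq]
    refine lt_of_le_of_lt ?_ hδε
    apply Metric.hausdorffDist_le_of_mem_dist (le_max_of_le_left dist_nonneg)
    · intro z hz
      rw [NonemptyCompacts.coe_sup, NonemptyCompacts.coe_sup] at hz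
      rcases hz with (hz | hz) | hz
      · exact ⟨z, hz, by rw [dist_self]; exact le_max_of_le_left dist_nonneg⟩
      · have hzx : z = x := by simpa using hz
        subst hzx
        exact ⟨a, ha, le_max_left _ _⟩
      · have hzy : z = y := by simpa using hz
        subst hzy
        exact ⟨a, ha, le_max_right _ _⟩
    · intro z hz
      refine ⟨z, ?_, by rw [dist_self]; exact le_max_of_le_left dist_nonneg⟩
      rw [NonemptyCompacts.coe_sup, NonemptyCompacts.coe_sup]
      exact Or.inl (Or.inl hz)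
  · refine ⟨x, ?_, y, ?_, hx0, hxy⟩
    · rw [← SetLike.mem_coe, NonemptyCompacts.coe_sup, NonemptyCompacts.coe_sup]
      exact Or.inl (Or.inr (by simp))
    · rw [← SetLike.mem_coe, NonemptyCompacts.coe_sup]
      exact Or.inr (by simp)

/-- **Theorem.** For every nonempty compact `K ⊆ [0, 1]` the partial Minkowski sums of the
exponential series converge in the Hausdorff metric to exactly one nonempty compact set `exp(K)`.
If `K` has two different positive points then `exp(K)` has positive Hausdorff dimension.  For the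
typical `K` (in the sense of Baire category) `exp(K)` has positive Hausdorff dimension; in particular
the set of the `K` such that `exp(K)` has positive Hausdorff dimension is not meagre. -/
theorem result :
    (∀ K : KK01, ∃! L, IsExp K L) ∧
    (∀ K : KK01, (∃ x ∈ K, ∃ y ∈ K, (0 : ℝ) < (x : ℝ) ∧ (x : ℝ) < y) →
      ∀ L, IsExp K L → 0 < dimH (L : Set ℝ)) ∧
    (∀ᶠ K in residual KK01, ∀ L, IsExp K L → 0 < dimH (L : Set ℝ)) ∧
    ¬ IsMeagre {K : KK01 | ∃ L, IsExp K L ∧ 0 < dimH (L : Set ℝ)} := by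
  have h2 : ∀ K : KK01, (∃ x ∈ K, ∃ y ∈ K, (0 : ℝ) < (x : ℝ) ∧ (x : ℝ) < y) →
      ∀ L, IsExp K L → 0 < dimH (L : Set ℝ) := by
    rintro K ⟨x, hx, y, hy, hx0, hxy⟩ L hL
    exact dimH_pos_of_two K x y hx hy hx0 hxy L hL
  have hres : Two ∈ residual KK01 := residual_of_dense_open isOpen_two dense_two
  refine ⟨?_, h2, ?_, ?_⟩
  · intro K
    obtain ⟨L, hL⟩ := exists_isExp K
    exact ⟨L, hL, fun L' hL' => tendsto_nhds_unique hL' hL⟩
  · filter_upwards [hres] with K hK
    exact h2 K hK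
  · intro hm
    apply not_isMeagre_of_mem_residual (s := {K : KK01 | ∃ L, IsExp K L ∧ 0 < dimH (L : Set ℝ)})
      _ hm
    filter_upwards [hres] with K hK
    obtain ⟨L, hL⟩ := exists_isExp K
    exact ⟨L, hL, h2 K hK L hL⟩

end Pool.Agent.Results.MP_098a03_an.PositiveDimension
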